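import Pool.Agent.Helper37_PFS.Main
import Pool.Agent.Helper32_PFS.Cd1
import Pool.Agent.Helper37_PFS.Full

/-!
# Codimension one simplices of irreducible convex cocompact domains

Let the discrete group `Γ` act convex cocompactly on an irreducible properly convex domain `Ω` of
dimension `k + 1 ≥ 3`, and let `Δ` be a properly embedded simplex of codimension one, of dimension
`k`, with vertices in the full orbital limit set.  Then `Δ` is a maximal properly embedded simplex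
of `Ω` and a subgroup of `Γ` isomorphic to `ℤ^k` preserves it.
-/

set_option autoImplicit false

open Matrix

namespace Pool.Agent.Results.MP_e54c4c_gt.CodimensionOne

/-- the full orbital limit set of `Γ`, as a set of unit vectors in the boundary of the cone
(verbatim the set that occurs in S14139) -/
def Lam {n : ℕ} (C : Set (Fin n → ℝ)) (Γ : Subgroup (GL (Fin n) ℝ)) : Set (Fin n → ℝ) :=
  {u : Fin n → ℝ | ‖u‖ = 1 ∧ u ∈ closure C ∧ u ∉ C ∧ ∃ x ∈ C,
    u ∈ closure {z : Fin n → ℝ | ∃ g ∈ Γ,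
      z = ‖(g : Matrix (Fin n) (Fin n) ℝ) *ᵥ x‖⁻¹ • ((g : Matrix (Fin n) (Fin n) ℝ) *ᵥ x)}}

/-- the open simplicial cone over the open simplex with vertices `v` -/
def OpenSimplex {n m : ℕ} (v : Fin m → (Fin n → ℝ)) : Set (Fin n → ℝ) :=
  {y : Fin n → ℝ | ∃ c : Fin m → ℝ, (∀ i, 0 < c i) ∧ y = ∑ i, c i • v i}

/-- `v` spans a properly embedded simplex of the domain -/
def ProperlyEmbedded {n m : ℕ} (C : Set (Fin n → ℝ)) (v : Fin m → (Fin n → ℝ)) : Prop :=
  LinearIndependent ℝ v ∧ OpenSimplex v ⊆ C ∧ closure (OpenSimplex v) ∩ C ⊆ OpenSimplex v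

/-- the domain of the cone `C` is irreducible: the only linear projections `P` such that `P` and
`1 - P` map the closed cone into itself are `0` and `1` (equivalently, `C` is not the sum of two
open convex cones in complementary proper subspaces) -/
def Irreducible {n : ℕ} (C : Set (Fin n → ℝ)) : Prop :=
  ∀ P : (Fin n → ℝ) →ₗ[ℝ] (Fin n → ℝ), (∀ x, P (P x) = P x) →
    (∀ x ∈ closure C, P x ∈ closure C ∧ x - P x ∈ closure C) →
    (∀ x, P x = 0) ∨ (∀ x, P x = x)

open Pool.Agent.PFS in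
/-- Let `Γ` act convex cocompactly on the domain of the irreducible open salient cone
`C ⊆ ℝ^{k+2}`, `k ≥ 2` (hypotheses verbatim as in S14139, but `Γ` is not assumed to be not
hyperbolic).  Every properly embedded `k`-simplex `v` with vertices in the full orbital limit set
is a maximal properly embedded simplex of the domain and is preserved by a subgroup of `Γ`
isomorphic to `ℤ^k`. -/
theorem result :
  ∀ (k : ℕ) (C : Set (Fin (k + 2) → ℝ)) (Γ : Subgroup (GL (Fin (k + 2)) ℝ)), 2 ≤ k →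
    IsOpen C → Convex ℝ C → C.Nonempty → (0 : Fin (k + 2) → ℝ) ∉ C →
    (∀ x ∈ C, ∀ t : ℝ, 0 < t → t • x ∈ C) →
    (∀ v : Fin (k + 2) → ℝ, v ∈ closure C → -v ∈ closure C → v = 0) →
    DiscreteTopology Γ →
    (∀ g ∈ Γ, |Matrix.det (g : Matrix (Fin (k + 2)) (Fin (k + 2)) ℝ)| = 1 ∧
        ∀ x ∈ C, (g : Matrix (Fin (k + 2)) (Fin (k + 2)) ℝ) *ᵥ x ∈ C) →
    (∃ y : Fin (k + 2) → ℝ, y ∈ C ∧ ∃ t : ℝ, 0 < t ∧ ∃ w ∈ convexHull ℝ (Lam C Γ), y = t • w) →
    (∃ K : Set (Fin (k + 2) → ℝ), IsCompact K ∧ K ⊆ C ∧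
      ∀ y : Fin (k + 2) → ℝ,
        (y ∈ C ∧ ∃ t : ℝ, 0 < t ∧ ∃ w ∈ convexHull ℝ (Lam C Γ), y = t • w) →
        ∃ g ∈ Γ, ∃ t : ℝ, 0 < t ∧
          t • ((g : Matrix (Fin (k + 2)) (Fin (k + 2)) ℝ) *ᵥ y) ∈ K) →
    Irreducible C →
    ∀ v : Fin (k + 1) → (Fin (k + 2) → ℝ), ProperlyEmbedded C v →
      (∀ i, ∃ t : ℝ, 0 < t ∧ ∃ u ∈ Lam C Γ, v i = t • u) →
      (∀ (m : ℕ) (w : Fin (m + 1) → (Fin (k + 2) → ℝ)), ProperlyEmbedded C w →
        OpenSimplex v ⊆ OpenSimplex w → OpenSimplex w ⊆ OpenSimplex v) ∧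
      ∃ A : Subgroup (GL (Fin (k + 2)) ℝ), A ≤ Γ ∧
        Nonempty (↥A ≃* Multiplicative (Fin k → ℤ)) ∧
        ∀ a ∈ A, ∀ y ∈ OpenSimplex v,
          (a : Matrix (Fin (k + 2)) (Fin (k + 2)) ℝ) *ᵥ y ∈ OpenSimplex v := by
  intro k C Γ hk h1 h2 h3 h4 h5 h6 h7 h8 h9 h10 hirr v hvP hvL
  have h : CC C Γ :=
    { isOpen := h1
      convex := h2
      nonempty := h3
      zero := h4
      smul := h5
      salient := h6
      disc := h7
      det := fun g hg => (h8 g hg).1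
      mem := fun g hg => (h8 g hg).2
      core := h9
      cocompact := by
        obtain ⟨K, hK1, hK2, hK3⟩ := h10
        exact ⟨K, hK1, hK2, fun y hy hy' => hK3 y ⟨hy, hy'⟩⟩ }
  have hv : IsPES C Γ v :=
    ⟨(H32.frz (k + 2) C h.toPCone (Fin (k + 1)) v hvP.1).mpr hvP.2, hvL⟩
  have hmax : MaxCard C Γ (k + 1) := by
    intro m w hw
    have hind := H60.lin (k + 2) C h.toPCone (Fin m) w hw.1
    have hm : m ≤ k + 2 := by
      have := hind.fintype_card_le_finrank
      simpa using this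
    by_contra hcon
    have hm2 : m = k + 2 := by omega
    subst hm2
    exact H37.not_full (by omega) h.toPCone hirr hw.1
  obtain ⟨c1, c2, c3, c4, c5⟩ := H37.orbF h hk hmax v hv fun w hw _ =>
    H32.cd1 H60.zom H60.lin (k + 2) C Γ h hirr (k + 1) (by omega) rfl w hw
  exact ⟨fun m w hw hsub => c4 m w hw.1 hw.2.1 hw.2.2 hsub, c5⟩

end Pool.Agent.Results.MP_e54c4c_gt.CodimensionOne
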